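import Pool.Agent.MP_20b2fd_nt.H38.Top

/-! The proportion of nonvanishing central values in weight two and prime level exceeds one half. -/

namespace Pool.Agent.Results.MP_20b2fd_nt.Full

open Pool.Agent.MP_20b2fd_nt
open scoped UpperHalfPlane

/-- the Fourier coefficient `a(n)` in `f(z) = ∑ a(n) exp(2 π i n z)` -/
noncomputable def coeff (f : ℍ → ℂ) (n : ℕ) : ℂ := (UpperHalfPlane.qExpansion 1 f).coeff n

/-- the normalised eigenforms of all Hecke operators (`T_p` for `p ∤ N`, `U_p` for `p ∣ N`) of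
weight two and level `N` with `f(-1/(N z)) = -N z² f(z)`, that is, with root number `+1` -/
def evenForms (N : ℕ) : Set (CuspForm (CongruenceSubgroup.Gamma0 N) 2) :=
  {f | coeff f 1 = 1 ∧
    (∀ p : ℕ, p.Prime → ∃ l : ℂ, ∀ n : ℕ, 1 ≤ n →
      coeff f (p * n) + (if ¬ p ∣ N ∧ p ∣ n then p * coeff f (n / p) else 0) = l * coeff f n) ∧
    ∀ z w : ℍ, (w : ℂ) = -1 / (N * z) → f w = -N * (z : ℂ) ^ 2 * f z}

/-- those whose L-function `∑ a(n) n ^ (-s)` does not vanish at the centre `s = 1` -/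
def nonvanishing (N : ℕ) : Set (CuspForm (CongruenceSubgroup.Gamma0 N) 2) :=
  {f | f ∈ evenForms N ∧ ∃ L : ℂ → ℂ, Differentiable ℂ L ∧
    (∀ s : ℂ, 2 < s.re → LSeriesHasSum (coeff f) s (L s)) ∧ L 1 ≠ 0}

/-- the natural proportion -/
noncomputable def proportion (N : ℕ) : ℝ := ((nonvanishing N).ncard : ℝ) / (evenForms N).ncard

theorem proportion_eq {N : ℕ} (hN : N.Prime) :
    proportion N = ((H38.Hn N).ncard : ℝ) / (H38.Hp N).ncard := by
  rw [H38.hn_eq hN, H38.hp_eq hN]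
  rfl

theorem result :
    ∃ δ : ℝ, 0 < δ ∧ ∃ N₀ : ℕ, ∀ N : ℕ, N₀ ≤ N → N.Prime → 1 / 2 + δ ≤ proportion N := by
  obtain ⟨δ, h1, N₀, h⟩ := H38.Top.full
  exact ⟨δ, h1, N₀, fun N hN hp => proportion_eq hp ▸ h N hN hp⟩

end Pool.Agent.Results.MP_20b2fd_nt.Full
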