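import Pool.Agent.MP_5f72fe_nt.H25.AllP

/-! The central value of a Hecke eigenform of level `3 ^ r` with even functional equation. -/

namespace Pool.Agent.Results.MP_20b2fd_nt.PowerOfThree

open Pool.Agent.MP_5f72fe_nt
open scoped UpperHalfPlane

/-- the Fourier coefficient `a(n)` in `f(z) = ∑ a(n) exp(2 π i n z)` -/
noncomputable def coeff (f : ℍ → ℂ) (n : ℕ) : ℂ := (UpperHalfPlane.qExpansion 1 f).coeff n

/-- the coefficients of an eigenfunction of every Hecke operator in weight `2 k` and level `N`: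
`T_p` for `p ∤ N` and `U_p` for `p ∣ N` -/
def IsEigen (N k : ℕ) (a : ℕ → ℂ) : Prop :=
  ∀ p : ℕ, p.Prime → ∃ l : ℂ, ∀ n : ℕ, 1 ≤ n →
    a (p * n) + (if ¬ p ∣ N ∧ p ∣ n then p ^ (2 * k - 1) * a (n / p) else 0) = l * a n

/-- the Fricke involution acts by the sign of `i ^ (2 k)`: the functional equation is even -/
def EvenSign (N k : ℕ) (f : ℍ → ℂ) : Prop :=
  ∀ z w : ℍ, (w : ℂ) = -1 / (N * z) → f w = (-1) ^ k * N ^ k * (z : ℂ) ^ (2 * k) * f z

theorem result (r k : ℕ) (hk : 1 ≤ k)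
    (f : CuspForm (CongruenceSubgroup.Gamma0 (3 ^ r)) (2 * k : ℕ)) (h0 : f ≠ 0)
    (hf : IsEigen (3 ^ r) k (coeff f)) (hs : EvenSign (3 ^ r) k f) :
    ∃ L : ℂ → ℂ, Differentiable ℂ L ∧
      (∀ s : ℂ, k + 1 < s.re → LSeriesHasSum (coeff f) s (L s)) ∧ L k ≠ 0 := by
  have key : MS.CNe k 1 (coeff f) := by
    by_contra h
    have z := MS.central MS.allRW r k hk f (fun l hl => ?_) (fun hr => ?_) ?_ h
    · refine h0 (CuspForm.ext fun w => ?_)
      simpa [MS.fc, w.im_pos] using congrFun z w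
    · have hp : l.Prime := by rcases hl with rfl | rfl <;> norm_num
      obtain ⟨c, hc⟩ := hf l hp
      have h3 : ¬ l ∣ 3 ^ r := fun h => by
        have := (Nat.prime_dvd_prime_iff_eq hp Nat.prime_three).1 (hp.dvd_of_dvd_pow h)
        omega
      refine ⟨c, fun n hn => ?_⟩
      have := hc n hn
      simp only [h3, not_false_eq_true, true_and] at this
      rw [mul_ite, mul_zero]
      exact this
    · obtain ⟨c, hc⟩ := hf 3 Nat.prime_three
      refine ⟨c, fun n hn => ?_⟩
      have := hc n hn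
      rwa [if_neg fun h => h.1 (dvd_pow_self 3 (by omega)), add_zero] at this
    · funext z
      by_cases hz : 0 < z.im
      swap
      · simp [MS.sl, MS.fc, hz]
      have z0 : z ≠ 0 := fun h => by simp [h] at hz
      have hw : 0 < (-1 / (3 ^ r * z)).im := by
        rw [show -1 / (3 ^ r * z) = ((1 / 3 ^ r : ℝ) : ℂ) * (-z)⁻¹ by push_cast; field_simp,
          Complex.im_ofReal_mul]
        exact mul_pos (by positivity) (UpperHalfPlane.im_inv_neg_coe_pos ⟨z, hz⟩)
      have := hs ⟨z, hz⟩ ⟨_, hw⟩ (by simp)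
      simp only [MS.sl, MS.fc, MS.det, hz, if_true, dif_pos, Pi.smul_apply, smul_eq_mul]
      push_cast at this ⊢
      simp only [zero_mul, zero_add, add_zero, hw, dif_pos, this]
      field_simp
      ring
  obtain ⟨L, l1, l2, l3⟩ := key
  exact ⟨L, l1, fun s hs => by simpa using l2 s hs, l3⟩

end Pool.Agent.Results.MP_20b2fd_nt.PowerOfThree
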